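import Pool.Agent.R553.SW.RedPoly

/-!
# MP_21e81a_lc: maximising the total number of switches of a stacked casing is NP-hard
-/

namespace Pool.Agent.Results.MP_21e81a_lc.StackingNPHard

open Pool.Agent.NPC Pool.Agent.R553.SW

/-- Given a drawing of a connected simple graph with straight edges that satisfies the regularity
conditions, and an integer `K`, it is NP-hard to decide whether some global order of the edges
yields a casing with at least `K` switches. This is also true if all edges are horizontal or
vertical segments and all coordinates are natural numbers bounded by four times the number of
edges. -/
theorem result : NPHardP MaxTotalSwitches ∧ NPHardP MaxTotalSwitchesGrid :=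
  ⟨hard'.toNPHardP, hard.toNPHardP⟩

end Pool.Agent.Results.MP_21e81a_lc.StackingNPHard
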